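import Pool.Agent.U140.FM.Def
set_option autoImplicit false

/-!
Package A of project FM: basic properties of the frog functional `F` (permutation invariance,
monotonicity, submodularity, boundedness).
-/

set_option linter.unusedSectionVars false
set_option linter.unusedVariables false

namespace Pool.Agent.U140.FM
open Finset
open scoped BigOperators

namespace PkgA

section avg
variable {α β : Type} [Fintype α] [Fintype β]

lemma avg_mono {f g : α → ℝ} (h : ∀ x, f x ≤ g x) : avg f ≤ avg g := by
  unfold avg
  apply div_le_div_of_nonneg_right _ (Nat.cast_nonneg _)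
  exact Finset.sum_le_sum fun x _ => h x

lemma avg_add (f g : α → ℝ) : avg (fun x => f x + g x) = avg f + avg g := by
  unfold avg
  rw [Finset.sum_add_distrib, add_div]

lemma avg_const [Nonempty α] (c : ℝ) : avg (fun _ : α => c) = c := by
  unfold avg
  rw [Finset.sum_const, Finset.card_univ, nsmul_eq_mul]
  have : (Fintype.card α : ℝ) ≠ 0 := by
    exact_mod_cast Fintype.card_ne_zero
  field_simp

lemma avg_comm (f : α → β → ℝ) :
    avg (fun x => avg fun y => f x y) = avg (fun y => avg fun x => f x y) := by
  unfold avg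
  simp only [← Finset.sum_div]
  rw [Finset.sum_comm, div_right_comm]

lemma avg_nonneg {f : α → ℝ} (h : ∀ x, 0 ≤ f x) : 0 ≤ avg f := by
  unfold avg
  exact div_nonneg (Finset.sum_nonneg fun x _ => h x) (Nat.cast_nonneg _)

end avg

variable {V M : Type} [DecidableEq V] [Fintype M] [Inhabited M]
variable (step : V → M → V) (r : V → ℝ)

lemma path_length (x : V) (l : List M) : (path step x l).length = l.length := by
  induction l generalizing x with
  | nil => rfl
  | cons a l ih => simp [path, ih]

variable {K : ℕ}

lemma gain_nonneg (hr : ∀ v, 0 ≤ r v) (x : V) (u : Fin K → M) : 0 ≤ gain step r x u := by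
  unfold gain
  apply List.sum_nonneg
  intro y hy
  rw [List.mem_map] at hy
  obtain ⟨v, -, rfl⟩ := hy
  exact hr v

lemma gain_le (hr1 : ∀ v, r v ≤ 1) (x : V) (u : Fin K → M) : gain step r x u ≤ K := by
  unfold gain
  have h : ∀ l : List V, (l.map r).sum ≤ l.length := by
    intro l
    induction l with
    | nil => simp
    | cons a l ih =>
      simp only [List.map_cons, List.sum_cons, List.length_cons]
      push_cast
      linarith [hr1 a]
  refine (h _).trans ?_
  rw [path_length]
  simp

variable (Z Z' : Finset V) (w : V → Fin K → M)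

lemma reach_union (X Y : Finset V) :
    reach step Z w (X ∪ Y) = reach step Z w X ∪ reach step Z w Y := by
  classical
  ext z
  simp only [reach, Finset.mem_filter, Finset.mem_union]
  constructor
  · rintro ⟨hz, x, hx | hx, h⟩
    · exact Or.inl ⟨hz, x, hx, h⟩
    · exact Or.inr ⟨hz, x, hx, h⟩
  · rintro (⟨hz, x, hx, h⟩ | ⟨hz, x, hx, h⟩)
    · exact ⟨hz, x, Or.inl hx, h⟩
    · exact ⟨hz, x, Or.inr hx, h⟩

lemma reach_subset (X : Finset V) : reach step Z w X ⊆ Z := by
  classical
  unfold reach
  exact Finset.filter_subset _ _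

lemma reach_mono_set {Z Z' : Finset V} (h : Z ⊆ Z') (X : Finset V) :
    reach step Z w X ⊆ reach step Z' w X := by
  classical
  intro z
  simp only [reach, Finset.mem_filter]
  rintro ⟨hz, x, hx, hxZ, hr⟩
  refine ⟨h hz, x, hx, h hxZ, ?_⟩
  exact Relation.ReflTransGen.mono (fun a b hab => ⟨h hab.1, hab.2⟩) _ _ hr

lemma base_nonneg (hr : ∀ v, 0 ≤ r v) (X : Finset V) : 0 ≤ base step r Z w X :=
  Finset.sum_nonneg fun z _ => gain_nonneg step r hr z (w z)

lemma base_le (hr1 : ∀ v, r v ≤ 1) (X : Finset V) :
    base step r Z w X ≤ (Z.card : ℝ) * K := by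
  unfold base
  calc ∑ z ∈ reach step Z w X, gain step r z (w z)
      ≤ ∑ _z ∈ reach step Z w X, (K : ℝ) :=
        Finset.sum_le_sum fun z _ => gain_le step r hr1 z (w z)
    _ = ((reach step Z w X).card : ℝ) * K := by rw [Finset.sum_const, nsmul_eq_mul]
    _ ≤ (Z.card : ℝ) * K := by
        apply mul_le_mul_of_nonneg_right _ (Nat.cast_nonneg _)
        exact_mod_cast Finset.card_le_card (reach_subset step Z w X)

lemma base_mono (hr : ∀ v, 0 ≤ r v) {X X' : Finset V} (h : X ⊆ X') :
    base step r Z w X ≤ base step r Z w X' := by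
  unfold base
  apply Finset.sum_le_sum_of_subset_of_nonneg
  · rw [← Finset.union_eq_right.mpr h, reach_union]
    exact Finset.subset_union_left
  · intro z _ _
    exact gain_nonneg step r hr z (w z)

lemma base_mono_set (hr : ∀ v, 0 ≤ r v) {Z Z' : Finset V} (h : Z ⊆ Z') (X : Finset V) :
    base step r Z w X ≤ base step r Z' w X := by
  unfold base
  apply Finset.sum_le_sum_of_subset_of_nonneg (reach_mono_set step w h X)
  intro z _ _
  exact gain_nonneg step r hr z (w z)

lemma base_sub (hr : ∀ v, 0 ≤ r v) (X A C : Finset V) :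
    base step r Z w (X ∪ A ∪ C) + base step r Z w X
      ≤ base step r Z w (X ∪ A) + base step r Z w (X ∪ C) := by
  classical
  unfold base
  rw [reach_union, reach_union, reach_union]
  set P := reach step Z w X
  set Q := reach step Z w A
  set R := reach step Z w C
  have h1 := Finset.sum_union_inter (s₁ := P ∪ Q) (s₂ := P ∪ R)
    (f := fun z => gain step r z (w z))
  have h2 : (P ∪ Q) ∪ (P ∪ R) = P ∪ Q ∪ R := by
    ext z; simp only [Finset.mem_union]; tauto
  rw [h2] at h1
  have h3 : ∑ z ∈ P, gain step r z (w z) ≤ ∑ z ∈ (P ∪ Q) ∩ (P ∪ R), gain step r z (w z) := by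
    apply Finset.sum_le_sum_of_subset_of_nonneg
    · intro z hz
      simp only [Finset.mem_inter, Finset.mem_union]
      exact ⟨Or.inl hz, Or.inl hz⟩
    · intro z _ _
      exact gain_nonneg step r hr z (w z)
  linarith

lemma base_empty : base step r Z w ∅ = 0 := by
  classical
  have : reach step Z w ∅ = ∅ := by
    ext z
    simp [reach]
  unfold base
  rw [this, Finset.sum_empty]

lemma Phi_cons (X : Finset V) (x : V) (O : List V) :
    Phi step r Z w X (x :: O)
      = avg fun u : Fin K → M => gain step r x u + Phi step r Z w (X ∪ vis step x u) O := rfl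

lemma Phi_swap (X : Finset V) (x y : V) (O : List V) :
    Phi step r Z w X (x :: y :: O) = Phi step r Z w X (y :: x :: O) := by
  simp only [Phi_cons]
  have e1 : ∀ (a b : V) (X : Finset V), (avg fun u : Fin K → M => gain step r a u +
      avg fun v : Fin K → M => gain step r b v
        + Phi step r Z w (X ∪ vis step a u ∪ vis step b v) O)
      = avg fun u : Fin K → M => avg fun v : Fin K → M => gain step r a u + gain step r b v
        + Phi step r Z w (X ∪ vis step a u ∪ vis step b v) O := by
    intro a b X
    congr 1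
    funext u
    have := avg_add (fun _ : Fin K → M => gain step r a u)
      (fun v : Fin K → M => gain step r b v
        + Phi step r Z w (X ∪ vis step a u ∪ vis step b v) O)
    rw [avg_const] at this
    rw [← this]
    congr 1
    funext v
    ring
  rw [e1, e1, avg_comm]
  congr 1
  funext u
  congr 1
  funext v
  rw [add_comm (gain step r x v)]
  congr 2
  rw [Finset.union_right_comm]

lemma Phi_perm {O O' : List V} (h : O.Perm O') :
    ∀ X : Finset V, Phi step r Z w X O = Phi step r Z w X O' := by
  induction h with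
  | nil => intro X; rfl
  | cons x _ ih =>
    intro X
    simp only [Phi_cons]
    congr 1
    funext u
    rw [ih]
  | swap x y l => intro X; exact Phi_swap step r Z w X y x l
  | trans _ _ ih1 ih2 => intro X; rw [ih1, ih2]

lemma Phi_nonneg (hr : ∀ v, 0 ≤ r v) (O : List V) :
    ∀ X : Finset V, 0 ≤ Phi step r Z w X O := by
  induction O with
  | nil => intro X; exact base_nonneg step r Z w hr X
  | cons x O ih =>
    intro X
    rw [Phi_cons]
    exact avg_nonneg fun u => add_nonneg (gain_nonneg step r hr x u) (ih _)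

lemma Phi_mono (hr : ∀ v, 0 ≤ r v) (O : List V) :
    ∀ X X' : Finset V, X ⊆ X' → Phi step r Z w X O ≤ Phi step r Z w X' O := by
  induction O with
  | nil => intro X X' h; exact base_mono step r Z w hr h
  | cons x O ih =>
    intro X X' h
    rw [Phi_cons, Phi_cons]
    apply avg_mono
    intro u
    have := ih (X ∪ vis step x u) (X' ∪ vis step x u) (Finset.union_subset_union_left h)
    linarith

lemma Phi_mono_set (hr : ∀ v, 0 ≤ r v) {Z Z' : Finset V} (h : Z ⊆ Z') (O : List V) :
    ∀ X : Finset V, Phi step r Z w X O ≤ Phi step r Z' w X O := by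
  induction O with
  | nil => intro X; exact base_mono_set step r w hr h X
  | cons x O ih =>
    intro X
    rw [Phi_cons, Phi_cons]
    apply avg_mono
    intro u
    have := ih (X ∪ vis step x u)
    linarith

lemma Phi_mono_cons (hr : ∀ v, 0 ≤ r v) (x : V) (O : List V) (X : Finset V) :
    Phi step r Z w X O ≤ Phi step r Z w X (x :: O) := by
  rw [Phi_cons]
  have h : (avg fun _ : Fin K → M => Phi step r Z w X O) = Phi step r Z w X O := avg_const _
  rw [← h]
  apply avg_mono
  intro u
  have h1 := gain_nonneg step r hr x u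
  have h2 := Phi_mono step r Z w hr O X (X ∪ vis step x u) Finset.subset_union_left
  linarith

lemma Phi_sub_set (hr : ∀ v, 0 ≤ r v) (O : List V) :
    ∀ X A C : Finset V, Phi step r Z w (X ∪ A ∪ C) O + Phi step r Z w X O
      ≤ Phi step r Z w (X ∪ A) O + Phi step r Z w (X ∪ C) O := by
  induction O with
  | nil => intro X A C; exact base_sub step r Z w hr X A C
  | cons x O ih =>
    intro X A C
    simp only [Phi_cons]
    rw [← avg_add, ← avg_add]
    apply avg_mono
    intro u
    have := ih (X ∪ vis step x u) A C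
    have e1 : X ∪ vis step x u ∪ A ∪ C = X ∪ A ∪ C ∪ vis step x u := by
      ext z; simp only [Finset.mem_union]; tauto
    have e2 : X ∪ vis step x u ∪ A = X ∪ A ∪ vis step x u := by
      ext z; simp only [Finset.mem_union]; tauto
    have e3 : X ∪ vis step x u ∪ C = X ∪ C ∪ vis step x u := by
      ext z; simp only [Finset.mem_union]; tauto
    rw [e1, e2, e3] at this
    linarith

lemma Phi_sub (hr : ∀ v, 0 ≤ r v) (a b : V) (O : List V) (X : Finset V) :
    Phi step r Z w X (a :: b :: O) + Phi step r Z w X O
      ≤ Phi step r Z w X (a :: O) + Phi step r Z w X (b :: O) := by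
  have h0 : Phi step r Z w X O = avg fun _ : Fin K → M => avg fun _ : Fin K → M =>
      Phi step r Z w X O := by rw [avg_const, avg_const]
  have h1 : Phi step r Z w X (b :: O) = avg fun _ : Fin K → M => Phi step r Z w X (b :: O) := by
    rw [avg_const]
  rw [h0, h1, Phi_cons, Phi_cons step r Z w X a O, ← avg_add, ← avg_add]
  apply avg_mono
  intro u
  have h2 : gain step r a u + Phi step r Z w (X ∪ vis step a u) O
      = avg fun _ : Fin K → M => gain step r a u + Phi step r Z w (X ∪ vis step a u) O := by
    rw [avg_const]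
  have h3 : gain step r a u + Phi step r Z w (X ∪ vis step a u) (b :: O)
      = avg fun v : Fin K → M => (gain step r a u + (gain step r b v
        + Phi step r Z w (X ∪ vis step a u ∪ vis step b v) O)) := by
    rw [avg_add, avg_const, Phi_cons]
  rw [h3, h2, Phi_cons step r Z w X b O, ← avg_add, ← avg_add]
  apply avg_mono
  intro v
  have := Phi_sub_set step r Z w hr O X (vis step a u) (vis step b v)
  linarith

lemma Phi_le (hr : ∀ v, 0 ≤ r v) (hr1 : ∀ v, r v ≤ 1) (O : List V) :
    ∀ X X' : Finset V, Phi step r Z w X O ≤ Phi step r Z' w X' O + (Z.card : ℝ) * K := by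
  induction O with
  | nil =>
    intro X X'
    have h1 := base_le step r Z w hr1 X
    have h2 := base_nonneg step r Z' w hr X'
    show base step r Z w X ≤ base step r Z' w X' + (Z.card : ℝ) * K
    linarith
  | cons x O ih =>
    intro X X'
    rw [Phi_cons, Phi_cons]
    have h : (avg fun u : Fin K → M => (gain step r x u
        + Phi step r Z' w (X' ∪ vis step x u) O) + (Z.card : ℝ) * K)
        = (avg fun u : Fin K → M => gain step r x u
          + Phi step r Z' w (X' ∪ vis step x u) O) + (Z.card : ℝ) * K := by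
      rw [avg_add, avg_const]
    rw [← h]
    apply avg_mono
    intro u
    have := ih (X ∪ vis step x u) (X' ∪ vis step x u)
    linarith

lemma Phi_cons_le (hr : ∀ v, 0 ≤ r v) (hr1 : ∀ v, r v ≤ 1) (x : V) (O : List V)
    (X : Finset V) :
    Phi step r Z w X (x :: O) ≤ Phi step r Z w X O + ((Z.card : ℝ) + 1) * K := by
  rw [Phi_cons]
  have h : (avg fun _ : Fin K → M => Phi step r Z w X O + ((Z.card : ℝ) + 1) * K)
      = Phi step r Z w X O + ((Z.card : ℝ) + 1) * K := avg_const _
  rw [← h]
  apply avg_mono
  intro u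
  have h1 := gain_le step r hr1 x u
  have h2 := Phi_le step r Z Z w hr hr1 O (X ∪ vis step x u) X
  linarith

end PkgA

open PkgA

variable {V M : Type} [DecidableEq V] [Fintype M] [Inhabited M]
variable (step : V → M → V) (r : V → ℝ) (K : ℕ) (B : Finset V)

theorem F_perm {O O' : List V} (h : O.Perm O') (Z : Set V) :
    F step r K B O Z = F step r K B O' Z := by
  unfold F
  congr 1
  funext w
  exact Phi_perm step r _ _ h ∅

theorem F_nil (Z : Set V) : F step r K B [] Z = 0 := by
  classical
  have h0 : (avg fun _ : B → Fin K → M => (0 : ℝ)) = 0 := avg_const 0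
  refine Eq.trans ?_ h0
  unfold F
  congr 1
  funext w
  exact base_empty step r _ _

theorem F_nonneg (hr : ∀ v, 0 ≤ r v) (O : List V) (Z : Set V) : 0 ≤ F step r K B O Z :=
  avg_nonneg fun w => Phi_nonneg step r _ _ hr O ∅

/-- bounded increments -/
theorem F_cons_le (hr : ∀ v, 0 ≤ r v) (hr1 : ∀ v, r v ≤ 1) (x : V) (O : List V) (Z : Set V) :
    F step r K B (x :: O) Z ≤ F step r K B O Z + ((B.card : ℝ) + 1) * K := by
  classical
  unfold F
  have h : (avg fun w : B → Fin K → M => Phi step r (B.filter (· ∈ Z)) (ext B w) ∅ O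
        + ((B.card : ℝ) + 1) * K)
      = (avg fun w : B → Fin K → M => Phi step r (B.filter (· ∈ Z)) (ext B w) ∅ O)
        + ((B.card : ℝ) + 1) * K := by
    rw [avg_add, avg_const]
  rw [← h]
  apply avg_mono
  intro w
  have h1 := Phi_cons_le step r (B.filter (· ∈ Z)) (ext B w) hr hr1 x O ∅
  have h2 : (((B.filter (· ∈ Z)).card : ℝ) + 1) * K ≤ ((B.card : ℝ) + 1) * K := by
    apply mul_le_mul_of_nonneg_right _ (Nat.cast_nonneg _)
    have : ((B.filter (· ∈ Z)).card : ℝ) ≤ (B.card : ℝ) := by
      exact_mod_cast Finset.card_filter_le _ _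
    linarith
  linarith

/-- bounded dependence on `Z` -/
theorem F_le_set (hr : ∀ v, 0 ≤ r v) (hr1 : ∀ v, r v ≤ 1) (O : List V) (Z Z' : Set V) :
    F step r K B O Z ≤ F step r K B O Z' + (B.card : ℝ) * K := by
  classical
  unfold F
  have h : (avg fun w : B → Fin K → M => Phi step r (B.filter (· ∈ Z')) (ext B w) ∅ O
        + (B.card : ℝ) * K)
      = (avg fun w : B → Fin K → M => Phi step r (B.filter (· ∈ Z')) (ext B w) ∅ O)
        + (B.card : ℝ) * K := by
    rw [avg_add, avg_const]
  rw [← h]
  apply avg_mono
  intro w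
  have h1 := Phi_le step r (B.filter (· ∈ Z)) (B.filter (· ∈ Z')) (ext B w) hr hr1 O ∅ ∅
  have h2 : ((B.filter (· ∈ Z)).card : ℝ) * K ≤ (B.card : ℝ) * K := by
    apply mul_le_mul_of_nonneg_right _ (Nat.cast_nonneg _)
    exact_mod_cast Finset.card_filter_le _ _
  linarith

theorem F_mono_cons (hr : ∀ v, 0 ≤ r v) (x : V) (O : List V) (Z : Set V) :
    F step r K B O Z ≤ F step r K B (x :: O) Z :=
  avg_mono fun w => Phi_mono_cons step r _ _ hr x O ∅

theorem F_mono_set (hr : ∀ v, 0 ≤ r v) (O : List V) {Z Z' : Set V}
    (h : ∀ v ∈ B, v ∈ Z → v ∈ Z') :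
    F step r K B O Z ≤ F step r K B O Z' := by
  classical
  refine avg_mono fun w => Phi_mono_set step r _ hr ?_ O ∅
  intro v hv
  rw [Finset.mem_filter] at hv ⊢
  exact ⟨hv.1, h v hv.1 hv.2⟩

/-- submodularity -/
theorem F_sub (hr : ∀ v, 0 ≤ r v) (a b : V) (O : List V) (Z : Set V) :
    F step r K B (a :: b :: O) Z + F step r K B O Z
      ≤ F step r K B (a :: O) Z + F step r K B (b :: O) Z := by
  unfold F
  rw [← avg_add, ← avg_add]
  exact avg_mono fun w => Phi_sub step r _ _ hr a b O ∅

end Pool.Agent.U140.FM
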